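import Pool.Agent.Run7.h285.A.Stm
import Pool.Agent.TH892.SW.S3
import Pool.Agent.Run7.h212.G.Pol

/-!
# Piece A:FLP of the project GENP (helper285): the fundamental lemma for polynomial values at the members of a set which is equidistributed
in the reduced residue classes (model: `TH892/SW/S2.lean`, `Run7/h382/S/FLS.lean`)
-/

set_option autoImplicit false

namespace Run7.h212.A

open Finset Polynomial
open Run7.h285.A
open Run7.h285.S (ll)
open Run7.h285.G (Gd pr)
open Pool.Agent.H373R2.T7 (pz Vz lamz mem_pz Vz_ge Vz_pos)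
open Pool.Agent.W41 (JJ JJ_lt JJ_le JJ_small)
open Run7.h212.G (card_root)

/-- the Chinese remainder theorem for systems of conditions -/
lemma crt_card (B : ℕ → ℕ → Prop) [∀ p x, Decidable (B p x)] (U : Finset ℕ) (hU : ∀ p ∈ U, p.Prime) :
    #((range (∏ p ∈ U, p)).filter (fun c => ∀ p ∈ U, B p (c % p))) = ∏ p ∈ U, #((range p).filter (fun x => B p x)) := by
  classical
  induction U using Finset.induction_on with
  | empty => simp
  | insert p U hp ih =>
    have hpp := hU p (mem_insert_self _ _)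
    have hU' : ∀ p' ∈ U, p'.Prime := fun p' h => hU p' (mem_insert_of_mem h)
    obtain ⟨Q, hQ⟩ : ∃ Q, Q = ∏ p ∈ U, p := ⟨_, rfl⟩
    have hcop : p.Coprime Q := by
      rw [hQ]
      apply Nat.Coprime.prod_right
      intro p' hp'
      rw [Nat.coprime_primes hpp (hU' p' hp')]
      rintro rfl
      exact hp hp'
    have hQ0 : Q ≠ 0 := by
      rw [hQ, prod_ne_zero_iff]
      exact fun p' hp' => (hU' p' hp').ne_zero
    have hdv : ∀ p' ∈ U, p' ∣ Q := fun p' hp' => by rw [hQ]; exact dvd_prod_of_mem _ hp'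
    have ih' := ih hU'
    rw [← hQ] at ih'
    rw [prod_insert hp, prod_insert hp, ← hQ, ← ih', ← card_product]
    refine card_nbij' (fun c => (c % p, c % Q)) (fun v => (Nat.chineseRemainder hcop v.1 v.2 : ℕ)) ?_ ?_ ?_ ?_
    · intro c hc
      rw [mem_coe, mem_filter, mem_range] at hc
      rw [mem_coe, mem_product, mem_filter, mem_filter, mem_range, mem_range]
      refine ⟨⟨Nat.mod_lt _ hpp.pos, ?_⟩, Nat.mod_lt _ (Nat.pos_of_ne_zero hQ0), ?_⟩
      · exact hc.2 p (mem_insert_self _ _)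
      · intro p' hp'
        show B p' (c % Q % p')
        rw [Nat.mod_mod_of_dvd _ (hdv p' hp')]
        exact hc.2 p' (mem_insert_of_mem hp')
    · intro v hv
      rw [mem_coe, mem_product, mem_filter, mem_filter, mem_range, mem_range] at hv
      obtain ⟨⟨v1, v2⟩, v3, v4⟩ := hv
      have h1 := (Nat.chineseRemainder hcop v.1 v.2).2
      rw [mem_coe, mem_filter, mem_range]
      refine ⟨Nat.chineseRemainder_lt_mul hcop v.1 v.2 hpp.ne_zero hQ0, ?_⟩
      intro p' hp'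
      rcases mem_insert.1 hp' with rfl | hp'
      · have h2 : (Nat.chineseRemainder hcop v.1 v.2 : ℕ) % p' = v.1 := by
          rw [h1.1, Nat.mod_eq_of_lt v1]
        rw [h2]
        exact v2
      · have h2 : (Nat.chineseRemainder hcop v.1 v.2 : ℕ) % p' = v.2 % p' := h1.2.of_dvd (hdv p' hp')
        rw [h2]
        exact v4 p' hp'
    · intro c hc
      rw [mem_coe, mem_filter, mem_range] at hc
      have h1 := (Nat.chineseRemainder hcop (c % p) (c % Q)).2
      have h2 : (Nat.chineseRemainder hcop (c % p) (c % Q) : ℕ) ≡ c [MOD p * Q] := by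
        rw [← Nat.modEq_and_modEq_iff_modEq_mul hcop]
        exact ⟨h1.1.trans (Nat.mod_modEq _ _), h1.2.trans (Nat.mod_modEq _ _)⟩
      exact Nat.ModEq.eq_of_lt_of_lt h2 (Nat.chineseRemainder_lt_mul hcop _ _ hpp.ne_zero hQ0) hc.1
    · intro v hv
      rw [mem_coe, mem_product, mem_filter, mem_filter, mem_range, mem_range] at hv
      obtain ⟨⟨v1, v2⟩, v3, v4⟩ := hv
      have h1 := (Nat.chineseRemainder hcop v.1 v.2).2
      apply Prod.ext
      · show (Nat.chineseRemainder hcop v.1 v.2 : ℕ) % p = v.1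
        rw [h1.1, Nat.mod_eq_of_lt v1]
      · show (Nat.chineseRemainder hcop v.1 v.2 : ℕ) % Q = v.2
        rw [h1.2, Nat.mod_eq_of_lt v3]

/-- a prime divides one of the values -/
def hit {k : ℕ} (f : Fin k → ℤ[X]) (a : Fin k → ℤ) (p n : ℕ) : Prop := ∃ l, (p : ℤ) ∣ (f l).eval (n : ℤ) + a l

lemma hit_mod {k : ℕ} (f : Fin k → ℤ[X]) (a : Fin k → ℤ) (p n : ℕ) : hit f a p (n % p) ↔ hit f a p n := by
  unfold hit
  refine exists_congr fun l => ?_
  apply dvd_iff_dvd_of_dvd_sub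
  have h : (p : ℤ) ∣ ((n % p : ℕ) : ℤ) - (n : ℤ) := by
    refine ⟨-((n / p : ℕ) : ℤ), ?_⟩
    have h1 : (p : ℤ) * ((n / p : ℕ) : ℤ) + ((n % p : ℕ) : ℤ) = n := by exact_mod_cast Nat.div_add_mod n p
    linarith
  have h2 := h.trans (sub_dvd_eval_sub _ _ (f l))
  rwa [add_sub_add_right_eq_sub]

open Classical in
lemma nup_eq {k : ℕ} (f : Fin k → ℤ[X]) (a : Fin k → ℤ) (p : ℕ) :
    nup f a p = #((range p).filter (fun x => x ≠ 0 ∧ hit f a p x)) := by
  unfold nup
  congr 1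
  ext x
  rw [mem_filter, mem_filter, mem_Ioo, mem_range]
  constructor
  · rintro ⟨⟨h1, h2⟩, h3⟩
    exact ⟨h2, by omega, h3⟩
  · rintro ⟨h1, h2, h3⟩
    exact ⟨⟨by omega, h1⟩, h3⟩

lemma nup_le_sub {k : ℕ} (f : Fin k → ℤ[X]) (a : Fin k → ℤ) (p : ℕ) : nup f a p ≤ p - 1 := by
  classical
  unfold nup
  refine (card_filter_le _ _).trans ?_
  rw [Nat.card_Ioo]
  omega

open Classical in
lemma nup_compl {k : ℕ} (f : Fin k → ℤ[X]) (a : Fin k → ℤ) (p : ℕ) (hp : 1 ≤ p) :
    #((range p).filter (fun x => x ≠ 0 ∧ ¬ hit f a p x)) + nup f a p = p - 1 := by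
  rw [nup_eq]
  have h1 : (range p).filter (fun x => x ≠ 0) = Ioo 0 p := by
    ext x
    rw [mem_filter, mem_Ioo, mem_range]
    constructor
    · rintro ⟨h1, h2⟩; omega
    · rintro ⟨h1, h2⟩; exact ⟨h2, by omega⟩
  have h2 := card_filter_add_card_filter_not (s := (range p).filter (fun x => x ≠ 0)) (fun x => hit f a p x)
  rw [filter_filter, filter_filter, h1, Nat.card_Ioo] at h2
  omega

lemma nup_le {k : ℕ} (f : Fin k → ℤ[X]) (hf : ∀ l, Gd (f l)) (a : Fin k → ℤ) (p : ℕ) (hp : p.Prime)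
    (hl : ∀ l, (f l).leadingCoeff.natAbs < p) : nup f a p ≤ ∑ l, (f l).natDegree := by
  classical
  rw [nup_eq]
  have h1 : (range p).filter (fun x => x ≠ 0 ∧ hit f a p x) ⊆
      (univ : Finset (Fin k)).biUnion (fun l => (range p).filter (fun x : ℕ => (p : ℤ) ∣ (f l + C (a l)).eval (x : ℤ))) := by
    intro x hx
    rw [mem_filter] at hx
    obtain ⟨h2, -, l, h3⟩ := hx
    rw [mem_biUnion]
    refine ⟨l, mem_univ _, mem_filter.2 ⟨h2, ?_⟩⟩
    rwa [eval_add, eval_C]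
  refine (card_le_card h1).trans (card_biUnion_le.trans (sum_le_sum fun l _ => ?_))
  have hd := (hf l).1
  apply card_root p hp
  · exact (natDegree_add_C).le
  · rw [coeff_add, coeff_C_of_ne_zero (by omega), add_zero]
    intro h
    have h2 : p ∣ (f l).leadingCoeff.natAbs := Int.natCast_dvd.1 h
    have h3 := Nat.le_of_dvd (Int.natAbs_pos.2 (hf l).2.ne') h2
    have h4 := hl l
    omega

lemma prod_eq {k : ℕ} (f : Fin k → ℤ[X]) (a : Fin k → ℤ) (w : ℕ) :
    ∏ p ∈ pz w, (1 - (nup f a p : ℝ) / ((p : ℝ) - 1)) = Vz w ^ k * SP f a w := by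
  unfold SP Vz
  have h1 : pz w = (range (w + 1)).filter Nat.Prime := by
    ext p
    rw [mem_pz, mem_filter, mem_range, Nat.lt_succ_iff]
  rw [← h1, ← prod_pow, ← prod_mul_distrib]
  refine prod_congr rfl fun p hp => ?_
  have hp2 : (2 : ℝ) ≤ p := by exact_mod_cast (mem_pz.1 hp).2.two_le
  have h2 : (1 - 1 / (p : ℝ)) ≠ 0 := by
    have : 1 / (p : ℝ) ≤ 1 / 2 := one_div_le_one_div_of_le (by norm_num) hp2
    linarith
  rw [mul_div_cancel₀ _ (pow_ne_zero k h2)]

open Classical in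
lemma lam_set {k : ℕ} (f : Fin k → ℤ[X]) (z : ℕ) (a : Fin k → ℤ) (S : Finset ℕ) :
    ∑ n ∈ S, pr f (fun _ => ll z) a n = (Vz z ^ k)⁻¹ * ((#(S.filter (fun n : ℕ => ∀ p ∈ pz z, ¬ hit f a p n)) : ℕ) : ℝ) := by
  rw [card_filter]
  push_cast
  rw [mul_sum]
  refine sum_congr rfl fun t _ => ?_
  unfold pr ll lamz
  have h3 : ∀ (l : Fin k) (p : ℕ), (p ∣ ((f l).eval (t : ℤ) + a l).natAbs) ↔ ((p : ℤ) ∣ (f l).eval (t : ℤ) + a l) := by
    intro l p
    rw [← Int.natCast_dvd]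
  by_cases h4 : ∀ p ∈ pz z, ¬ hit f a p t
  · rw [if_pos h4, mul_one]
    have h5 : ∀ l : Fin k, (if ∀ p ∈ pz z, ¬ p ∣ ((f l).eval (t : ℤ) + a l).natAbs then (Vz z)⁻¹ else 0) = (Vz z)⁻¹ := by
      intro l
      rw [if_pos]
      intro p hp hd
      exact h4 p hp ⟨l, (h3 l p).1 hd⟩
    rw [prod_congr rfl fun l _ => h5 l, prod_const, card_univ, Fintype.card_fin, inv_pow]
  · rw [if_neg h4, mul_zero]
    push Not at h4
    obtain ⟨p, hp, l, hd⟩ := h4
    apply prod_eq_zero (mem_univ l)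
    show (if ∀ p ∈ pz z, ¬ p ∣ ((f l).eval (t : ℤ) + a l).natAbs then (Vz z)⁻¹ else 0) = 0
    rw [if_neg]
    intro h5
    exact h5 p hp ((h3 l p).2 hd)

open Classical in
/-- the members of `S` which satisfy the conditions modulo the primes of `U` -/
lemma count_cls {k : ℕ} (f : Fin k → ℤ[X]) (a : Fin k → ℤ) (U : Finset ℕ) (hU : ∀ p ∈ U, p.Prime) (z0 : ℕ) (S : Finset ℕ) (V R : ℝ)
    (Z : ℕ) (hqZ : ∏ p ∈ U, p ≤ Z)
    (hS : ∀ q c : ℕ, 1 ≤ q → q ≤ Z → |(#(S.filter (fun n : ℕ => n % q = c % q)) : ℝ) - (if c.Coprime q then V / Nat.totient q else 0)| ≤ R) :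
    |(#(S.filter (fun n : ℕ => ∀ p ∈ U, if p ≤ z0 then ¬ hit f a p n else hit f a p n)) : ℝ) -
      V * ∏ p ∈ U, (if p ≤ z0 then 1 - (nup f a p : ℝ) / ((p : ℝ) - 1) else (nup f a p : ℝ) / ((p : ℝ) - 1))| ≤
      ((∏ p ∈ U, p : ℕ) : ℝ) * R := by
  set q := ∏ p ∈ U, p with hq
  have hq0 : q ≠ 0 := by
    rw [hq, prod_ne_zero_iff]
    exact fun p' hp' => (hU p' hp').ne_zero
  have hq1 : 1 ≤ q := Nat.pos_of_ne_zero hq0
  have hR : 0 ≤ R := (abs_nonneg _).trans (hS 1 0 le_rfl (hq1.trans hqZ))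
  set Cs := (range q).filter (fun c => ∀ p ∈ U, if p ≤ z0 then ¬ hit f a p (c % p) else hit f a p (c % p)) with hCs
  have hdv : ∀ p' ∈ U, p' ∣ q := fun p' hp' => by rw [hq]; exact dvd_prod_of_mem _ hp'
  have h1 : #(S.filter (fun n : ℕ => ∀ p ∈ U, if p ≤ z0 then ¬ hit f a p n else hit f a p n)) =
      ∑ c ∈ Cs, #(S.filter (fun n : ℕ => n % q = c % q)) := by
    have h2 : #(S.filter (fun n : ℕ => ∀ p ∈ U, if p ≤ z0 then ¬ hit f a p n else hit f a p n)) =
      ∑ c ∈ Cs, #((S.filter (fun n : ℕ => ∀ p ∈ U, if p ≤ z0 then ¬ hit f a p n else hit f a p n)).filter (fun n => n % q = c)) := by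
      apply card_eq_sum_card_fiberwise
      intro n hn
      rw [mem_coe, mem_filter] at hn
      rw [mem_coe, hCs, mem_filter, mem_range]
      refine ⟨Nat.mod_lt _ hq1, fun p hp => ?_⟩
      have h3 := hn.2 p hp
      rw [Nat.mod_mod_of_dvd _ (hdv p hp), hit_mod]
      exact h3
    rw [h2]
    refine sum_congr rfl fun c hc => ?_
    rw [hCs, mem_filter, mem_range] at hc
    congr 1
    rw [filter_filter]
    apply filter_congr
    intro n _
    rw [Nat.mod_eq_of_lt hc.1]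
    constructor
    · exact fun h => h.2
    · intro h
      refine ⟨fun p hp => ?_, h⟩
      have h3 := hc.2 p hp
      rw [← h, Nat.mod_mod_of_dvd _ (hdv p hp), hit_mod] at h3
      exact h3
  have h4 : V * ∏ p ∈ U, (if p ≤ z0 then 1 - (nup f a p : ℝ) / ((p : ℝ) - 1) else (nup f a p : ℝ) / ((p : ℝ) - 1)) =
      ∑ c ∈ Cs, (if c.Coprime q then V / Nat.totient q else 0) := by
    rw [← sum_filter, sum_const, nsmul_eq_mul]
    have h5 : Cs.filter (fun c => c.Coprime q) =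
        (range q).filter (fun c => ∀ p ∈ U, (c % p ≠ 0 ∧ if p ≤ z0 then ¬ hit f a p (c % p) else hit f a p (c % p))) := by
      rw [hCs, filter_filter]
      apply filter_congr
      intro c _
      have h6 : c.Coprime q ↔ ∀ p ∈ U, c % p ≠ 0 := by
        rw [hq, Nat.coprime_prod_right_iff]
        refine forall₂_congr fun p hp => ?_
        rw [Nat.coprime_comm, (hU p hp).coprime_iff_not_dvd, Nat.dvd_iff_mod_eq_zero]
      rw [h6]
      constructor
      · rintro ⟨h7, h8⟩ p hp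
        exact ⟨h8 p hp, h7 p hp⟩
      · intro h
        exact ⟨fun p hp => (h p hp).2, fun p hp => (h p hp).1⟩
    rw [h5, crt_card (fun p x => x ≠ 0 ∧ if p ≤ z0 then ¬ hit f a p x else hit f a p x) U hU]
    have h9 : (Nat.totient q : ℝ) = ∏ p ∈ U, ((p : ℝ) - 1) := by
      have h10 : Nat.totient q = ∏ p ∈ U, (p - 1) := by
        rw [hq]
        clear * - hU
        induction U using Finset.induction_on with
        | empty => simp
        | insert p U hp ih =>
          rw [prod_insert hp, prod_insert hp, Nat.totient_mul, Nat.totient_prime (hU p (mem_insert_self _ _)),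
            ih (fun p' h => hU p' (mem_insert_of_mem h))]
          apply Nat.Coprime.prod_right
          intro p' hp'
          rw [Nat.coprime_primes (hU p (mem_insert_self _ _)) (hU p' (mem_insert_of_mem hp'))]
          rintro rfl
          exact hp hp'
      rw [h10]
      push_cast
      refine prod_congr rfl fun p hp => ?_
      rw [Nat.cast_sub (hU p hp).one_lt.le, Nat.cast_one]
    have h16 : ∀ N T : ℝ, N * (V / T) = (N / T) * V := fun N T => by ring
    rw [h9, h16, mul_comm V, Nat.cast_prod, ← prod_div_distrib]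
    congr 1
    refine prod_congr rfl fun p hp => ?_
    have hp1 : (1 : ℝ) < p := by exact_mod_cast (hU p hp).one_lt
    have hp0 : (p : ℝ) - 1 ≠ 0 := by linarith
    by_cases h11 : p ≤ z0
    · simp only [if_pos h11]
      have h12 := nup_compl f a p (hU p hp).one_lt.le
      have h13 : (#((range p).filter (fun x => x ≠ 0 ∧ ¬ hit f a p x)) : ℝ) = (p : ℝ) - 1 - nup f a p := by
        have h14 : ((#((range p).filter (fun x => x ≠ 0 ∧ ¬ hit f a p x)) + nup f a p : ℕ) : ℝ) = ((p - 1 : ℕ) : ℝ) := by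
          exact_mod_cast h12
        rw [Nat.cast_sub (hU p hp).one_lt.le] at h14
        push_cast at h14
        linarith
      rw [h13]
      field_simp
    · simp only [if_neg h11]
      rw [nup_eq]
  rw [h1, h4]
  push_cast
  rw [← sum_sub_distrib]
  refine (abs_sum_le_sum_abs _ _).trans ((sum_le_sum fun c _ => hS q c hq1 hqZ).trans ?_)
  rw [sum_const, nsmul_eq_mul]
  apply mul_le_mul_of_nonneg_right _ hR
  have h15 : #Cs ≤ q := by
    rw [hCs]
    exact (card_filter_le _ _).trans (card_range q).le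
  exact_mod_cast h15

theorem flp {k : ℕ} (f : Fin k → ℤ[X]) (hf : ∀ l, Gd (f l)) : S_FLP f := by
  classical
  obtain ⟨C0, hC0, hFL⟩ := Pool.Agent.H20R2.fLem (∑ l, (f l).natDegree)
  obtain ⟨z0, hz0⟩ : ∃ z0, z0 = C0 + ∑ l, (f l).leadingCoeff.natAbs + 1 := ⟨_, rfl⟩
  have hlead : ∀ l, (f l).leadingCoeff.natAbs < z0 := by
    intro l
    have h1 : (f l).leadingCoeff.natAbs ≤ ∑ l, (f l).leadingCoeff.natAbs :=
      single_le_sum (f := fun l => (f l).leadingCoeff.natAbs) (fun _ _ => Nat.zero_le _) (mem_univ l)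
    omega
  obtain ⟨K0, hK0⟩ : ∃ K0 : ℕ, K0 = ∏ p ∈ (Icc 1 z0).filter Nat.Prime, p := ⟨_, rfl⟩
  have hK01 : 1 ≤ K0 := by
    rw [hK0]
    exact Nat.pos_of_ne_zero (prod_ne_zero_iff.2 fun p hp => (mem_filter.1 hp).2.ne_zero)
  refine ⟨4 * C0 + k + 4, K0 + 3, by omega, by omega, fun b hb z hz S V R hV hR hS a _ => ?_⟩
  have hb1 : 1 ≤ b := by omega
  have hbC : C0 ≤ b := by omega
  have hz2 : 2 ≤ z := by omega
  obtain ⟨J, hJ⟩ : ∃ J, J = JJ z := ⟨_, rfl⟩
  obtain ⟨Y, hY⟩ : ∃ Y : ℕ, Y = 2 ^ 2 ^ J := ⟨_, rfl⟩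
  have hyY : z < Y := by rw [hY, hJ]; exact JJ_lt z
  have hYy : Y ≤ z ^ 2 := by rw [hY, hJ]; exact JJ_le z hz2
  obtain ⟨D, hD⟩ : ∃ D : ℕ, D = (2 ^ 2 ^ J) ^ (C0 * b) := ⟨_, rfl⟩
  have hDy : D ≤ z ^ (2 * (C0 * b)) := by
    calc D ≤ (z ^ 2) ^ (C0 * b) := by rw [hD, ← hY]; exact Nat.pow_le_pow_left hYy _
      _ = z ^ (2 * (C0 * b)) := by rw [← pow_mul]
  obtain ⟨P0, hP0⟩ : ∃ P0 : Finset ℕ, P0 = (pz z).filter (fun p => p ≤ z0) := ⟨_, rfl⟩
  obtain ⟨P1, hP1⟩ : ∃ P1 : Finset ℕ, P1 = (pz z).filter (fun p => ¬ p ≤ z0) := ⟨_, rfl⟩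
  have hPu : pz z = P0 ∪ P1 := by rw [hP0, hP1]; exact (filter_union_filter_not_eq _ _).symm
  have hdisj : Disjoint P0 P1 := by rw [hP0, hP1]; exact disjoint_filter_filter_not _ _ _
  have hPp1 : ∀ p ∈ P1, p.Prime ∧ z0 < p ∧ p ≤ 2 ^ 2 ^ J := by
    intro p hp
    rw [hP1, mem_filter, mem_pz] at hp
    rw [← hY]
    exact ⟨hp.1.2, by omega, hp.1.1.trans hyY.le⟩
  have hPp0 : ∀ p ∈ P0, p.Prime ∧ p ≤ z0 := by
    intro p hp
    rw [hP0, mem_filter, mem_pz] at hp
    exact ⟨hp.1.2, hp.2⟩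
  obtain ⟨g, hg⟩ : ∃ g : ℕ → ℝ, g = fun p => (nup f a p : ℝ) / ((p : ℝ) - 1) := ⟨_, rfl⟩
  have hg1 : ∀ p : ℕ, p.Prime → g p ≤ 1 := by
    intro p hp
    rw [hg]
    have hp1 : (1 : ℝ) < p := by exact_mod_cast hp.one_lt
    show (nup f a p : ℝ) / ((p : ℝ) - 1) ≤ 1
    rw [div_le_one (by linarith)]
    have h1 : ((nup f a p : ℕ) : ℝ) ≤ ((p - 1 : ℕ) : ℝ) := by exact_mod_cast nup_le_sub f a p
    rwa [Nat.cast_sub hp.one_lt.le, Nat.cast_one] at h1
  obtain ⟨A, hA⟩ : ∃ A, A = V * ∏ p ∈ P0, (1 - g p) := ⟨_, rfl⟩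
  have hA0 : 0 ≤ A := by
    rw [hA]
    exact mul_nonneg hV (prod_nonneg fun p hp => sub_nonneg.2 (hg1 p (hPp0 p hp).1))
  have hzr : (2 : ℝ) ≤ z := by exact_mod_cast hz2
  have hz1r : (1 : ℝ) ≤ z := by linarith
  have hKD : K0 * D ≤ z ^ ((4 * C0 + k + 4) * b) := by
    calc K0 * D ≤ z ^ 1 * z ^ (2 * (C0 * b)) := by
          rw [pow_one]
          exact Nat.mul_le_mul (by omega) hDy
      _ = z ^ (1 + 2 * (C0 * b)) := by rw [pow_add]
      _ ≤ _ := Nat.pow_le_pow_right (by omega) (by nlinarith)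
  have key := hFL b J z0 P1 g hbC (by omega) hPp1 (fun p hp => by
      have hpp := (hPp1 p hp).1
      have hp1 : (1 : ℝ) < p := by exact_mod_cast hpp.one_lt
      rw [hg]
      refine ⟨div_nonneg (Nat.cast_nonneg _) (by linarith), ?_⟩
      apply div_le_div_of_nonneg_right _ (by linarith)
      exact_mod_cast nup_le f hf a p hpp (fun l => (hlead l).trans (hPp1 p hp).2.1))
    (S.filter (fun n => ∀ p ∈ P0, ¬ hit f a p n)) (fun _ => (1 : ℝ))
    (fun p n => hit f a p n) A (fun _ => (K0 * D : ℝ) * R)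
    (fun _ _ => zero_le_one) hA0 (by
      intro T hT hTD
      have hdT : Disjoint P0 T := disjoint_of_subset_right hT hdisj
      have hTz : ∀ p ∈ T, ¬ p ≤ z0 := fun p hp => by have := (hPp1 p (hT hp)).2.1; omega
      have hUp : ∀ p ∈ P0 ∪ T, p.Prime := by
        intro p hp
        rcases mem_union.1 hp with h | h
        · exact (hPp0 p h).1
        · exact (hPp1 p (hT h)).1
      have hprod0 : ∏ p ∈ P0, p ≤ K0 := by
        rw [hK0]
        apply prod_le_prod_of_subset_of_one_le'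
        · intro p hp
          rw [mem_filter, mem_Icc]
          exact ⟨⟨(hPp0 p hp).1.one_lt.le, (hPp0 p hp).2⟩, (hPp0 p hp).1⟩
        · intro p hp _
          exact (mem_filter.1 hp).2.one_lt.le
      have hprod : ∏ p ∈ P0 ∪ T, p ≤ K0 * D := by
        rw [prod_union hdT]
        exact Nat.mul_le_mul hprod0 (by rw [hD]; exact hTD)
      have h3 := count_cls f a (P0 ∪ T) hUp z0 S V R (z ^ ((4 * C0 + k + 4) * b)) (hprod.trans hKD) hS
      have e1 : ∏ p ∈ P0 ∪ T, (if p ≤ z0 then 1 - (nup f a p : ℝ) / ((p : ℝ) - 1) else (nup f a p : ℝ) / ((p : ℝ) - 1)) =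
          (∏ p ∈ P0, (1 - g p)) * ∏ p ∈ T, g p := by
        rw [prod_union hdT, hg]
        congr 1
        · exact prod_congr rfl fun p hp => if_pos (hPp0 p hp).2
        · exact prod_congr rfl fun p hp => if_neg (hTz p hp)
      have e2 : ∑ m ∈ (S.filter (fun n => ∀ p ∈ P0, ¬ hit f a p n)).filter (fun m => ∀ p ∈ T, hit f a p m), (1 : ℝ) =
          (#(S.filter (fun n : ℕ => ∀ p ∈ P0 ∪ T, if p ≤ z0 then ¬ hit f a p n else hit f a p n)) : ℝ) := by
        rw [sum_const, nsmul_eq_mul, mul_one, filter_filter]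
        congr 2
        apply filter_congr
        intro n _
        constructor
        · rintro ⟨h5, h6⟩ p hp
          rcases mem_union.1 hp with h | h
          · rw [if_pos (hPp0 p h).2]
            exact h5 p h
          · rw [if_neg (hTz p h)]
            exact h6 p h
        · intro h5
          refine ⟨?_, ?_⟩
          · intro p hp
            have h8 := h5 p (mem_union_left _ hp)
            rwa [if_pos (hPp0 p hp).2] at h8
          · intro p hp
            have h8 := h5 p (mem_union_right _ hp)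
            rwa [if_neg (hTz p hp)] at h8
      have h6 : ((∏ p ∈ P0 ∪ T, p : ℕ) : ℝ) * R ≤ (K0 * D : ℝ) * R := by
        apply mul_le_mul_of_nonneg_right _ hR
        exact_mod_cast hprod
      rw [e1, ← e2, ← mul_assoc, ← hA] at h3
      refine le_trans (le_of_eq ?_) (h3.trans h6)
      congr 2)
  have f1 : ∑ m ∈ (S.filter (fun n => ∀ p ∈ P0, ¬ hit f a p n)).filter (fun m => ∀ p ∈ P1, ¬ hit f a p m), (1 : ℝ) =
      ((#(S.filter (fun n : ℕ => ∀ p ∈ pz z, ¬ hit f a p n)) : ℕ) : ℝ) := by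
    rw [sum_const, nsmul_eq_mul, mul_one, filter_filter]
    congr 2
    apply filter_congr
    intro n _
    rw [hPu]
    constructor
    · rintro ⟨h5, h6⟩
      intro p hp
      rcases mem_union.1 hp with h | h
      · exact h5 p h
      · exact h6 p h
    · intro h
      exact ⟨fun p hp => h p (mem_union_left _ hp), fun p hp => h p (mem_union_right _ hp)⟩
  have f2 : A * ∏ p ∈ P1, (1 - g p) = V * (Vz z ^ k * SP f a z) := by
    rw [hA, ← prod_eq, hPu, prod_union hdisj, hg, mul_assoc]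
  rw [f2] at key
  obtain ⟨N, hN⟩ : ∃ N : ℝ, N = ((#(S.filter (fun n : ℕ => ∀ p ∈ pz z, ¬ hit f a p n)) : ℕ) : ℝ) := ⟨_, rfl⟩
  have key2 : |N - V * (Vz z ^ k * SP f a z)| ≤
      (1 / 2 : ℝ) ^ b * (V * (Vz z ^ k * SP f a z)) + ((J : ℝ) + 2) *
        ∑ T ∈ P1.powerset.filter (fun T : Finset ℕ => ∏ p ∈ T, p ≤ (2 ^ 2 ^ J) ^ (C0 * b)), (K0 * D : ℝ) * R := by
    rw [hN, ← f1]
    refine le_trans (le_of_eq ?_) key
    congr 2
  have hcard : (P1.powerset.filter (fun T : Finset ℕ => ∏ p ∈ T, p ≤ D)).card ≤ D := by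
    calc _ ≤ (Icc 1 D).card := by
          apply card_le_card_of_injOn (fun T : Finset ℕ => ∏ p ∈ T, p)
          · intro T hT
            rw [mem_coe, mem_filter, mem_powerset] at hT
            have h5 : 1 ≤ ∏ p ∈ T, p := Nat.pos_of_ne_zero (prod_ne_zero_iff.2 fun p hp => (hPp1 p (hT.1 hp)).1.ne_zero)
            exact mem_coe.2 (mem_Icc.2 ⟨h5, hT.2⟩)
          · intro S hS S' hS' h
            rw [mem_coe, mem_filter, mem_powerset] at hS hS'
            have hSp : ∀ p ∈ S, p.Prime := fun p hp => (hPp1 p (hS.1 hp)).1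
            have hSp' : ∀ p ∈ S', p.Prime := fun p hp => (hPp1 p (hS'.1 hp)).1
            simp only at h
            ext p
            constructor
            · intro hp
              have h1 : p ∣ ∏ p ∈ S', p := h ▸ dvd_prod_of_mem _ hp
              obtain ⟨p', hp', hd⟩ := (Nat.Prime.prime (hSp p hp)).exists_mem_finset_dvd h1
              rw [Nat.prime_dvd_prime_iff_eq (hSp p hp) (hSp' p' hp')] at hd
              exact hd ▸ hp'
            · intro hp
              have h1 : p ∣ ∏ p ∈ S, p := h ▸ dvd_prod_of_mem _ hp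
              obtain ⟨p', hp', hd⟩ := (Nat.Prime.prime (hSp' p hp)).exists_mem_finset_dvd h1
              rw [Nat.prime_dvd_prime_iff_eq (hSp' p hp) (hSp p' hp')] at hd
              exact hd ▸ hp'
      _ = D := by simp
  rw [← hD, sum_const, nsmul_eq_mul] at key2
  -- the error
  have hDr : (D : ℝ) ≤ (z : ℝ) ^ (2 * (C0 * b)) := by exact_mod_cast hDy
  have hJr : ((J : ℝ) + 2) ≤ z * z := by
    have h3 : ((J : ℝ) + 2) ≤ 2 * z := by rw [hJ]; exact_mod_cast JJ_small z (by omega)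
    nlinarith
  have hK0r : (K0 : ℝ) ≤ z := by exact_mod_cast (by omega : K0 ≤ z)
  have hcr : ((P1.powerset.filter (fun T : Finset ℕ => ∏ p ∈ T, p ≤ D)).card : ℝ) ≤ (z : ℝ) ^ (2 * (C0 * b)) := by
    refine le_trans ?_ hDr
    exact_mod_cast hcard
  have hV0 := Vz_pos z
  have hVk : 0 < Vz z ^ k := pow_pos hV0 k
  have hVi : (Vz z ^ k)⁻¹ ≤ (z : ℝ) ^ k := by
    have h1 := Vz_ge z (by omega)
    have h2 : (1 / (z : ℝ)) ^ k ≤ Vz z ^ k := pow_le_pow_left₀ (by positivity) h1 k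
    rw [one_div_pow] at h2
    rw [inv_le_comm₀ hVk (by positivity), ← one_div]
    exact h2
  obtain ⟨cN, hcN⟩ : ∃ cN : ℝ, cN = ((P1.powerset.filter (fun T : Finset ℕ => ∏ p ∈ T, p ≤ D)).card : ℝ) := ⟨_, rfl⟩
  have hcN0 : 0 ≤ cN := by rw [hcN]; exact Nat.cast_nonneg _
  obtain ⟨vi, hvi⟩ : ∃ vi : ℝ, vi = (Vz z ^ k)⁻¹ := ⟨_, rfl⟩
  have hvi0 : 0 ≤ vi := by rw [hvi]; exact (inv_pos.2 hVk).le
  rw [← hcN] at key2 hcr
  rw [← hvi] at hVi
  have herr : vi * (((J : ℝ) + 2) * (cN * ((K0 * D : ℝ) * R))) ≤ (z : ℝ) ^ (3 * ((4 * C0 + k + 4) * b)) * R := by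
    calc vi * (((J : ℝ) + 2) * (cN * ((K0 * D : ℝ) * R))) ≤
        (z : ℝ) ^ k * ((z * z) * ((z : ℝ) ^ (2 * (C0 * b)) * ((z * (z : ℝ) ^ (2 * (C0 * b))) * R))) := by
          gcongr
      _ = (z : ℝ) ^ (k + 3 + 4 * (C0 * b)) * R := by
          have h5 : (z : ℝ) ^ (k + 3 + 4 * (C0 * b)) = (z : ℝ) ^ k * (z : ℝ) ^ (2 * (C0 * b)) * (z : ℝ) ^ (2 * (C0 * b)) * (z : ℝ) ^ 3 := by
            rw [← pow_add, ← pow_add, ← pow_add]
            congr 1
            ring
          rw [h5]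
          ring
      _ ≤ _ := by
          apply mul_le_mul_of_nonneg_right _ hR
          apply pow_le_pow_right₀ hz1r
          nlinarith
  have hSP0 : 0 ≤ SP f a z := by
    have h1 : 0 ≤ Vz z ^ k * SP f a z := by
      rw [← prod_eq]
      refine prod_nonneg fun p hp => sub_nonneg.2 ?_
      have h2 := hg1 p (mem_pz.1 hp).2
      rw [hg] at h2
      exact h2
    exact nonneg_of_mul_nonneg_right h1 hVk
  rw [hvi] at herr
  rw [lam_set, ← hN]
  have e : (Vz z ^ k)⁻¹ * N - V * SP f a z = (Vz z ^ k)⁻¹ * (N - V * (Vz z ^ k * SP f a z)) := by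
    field_simp
  rw [e, abs_mul, abs_of_pos (inv_pos.2 hVk)]
  have h7 := mul_le_mul_of_nonneg_left key2 (inv_nonneg.2 hVk.le)
  have h8 : (Vz z ^ k)⁻¹ * ((1 / 2 : ℝ) ^ b * (V * (Vz z ^ k * SP f a z))) = (1 / 2 : ℝ) ^ b * SP f a z * V := by
    field_simp
  have h9 : 0 ≤ (1 / 2 : ℝ) ^ b * SP f a z * V := by positivity
  rw [mul_add, h8] at h7
  linarith

end Run7.h212.A
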