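import Pool.Agent.Q236.CR.Stm
import Pool.Agent.TH892.SW.S5

/-!
# Piece A:PAW of the project GENP (helper285), first part: mean squares of the errors for primes in progressions in short windows
-/

set_option autoImplicit false

namespace Run7.h212.A

open Finset Filter
open Pool.Agent.Q236.CR (S_SIA cc)
open Pool.Agent.H469R2.NK (e norm_e e_add e_nat e_zero)
open Pool.Agent.TH892.SW (wt wt_nonneg wt_anti pp_sum)

lemma e_pow (x : ℝ) (b : ℕ) : e x ^ b = e (b * x) := by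
  unfold e
  rw [← Complex.exp_nat_mul]
  congr 1
  push_cast
  ring

lemma e_one_int (x : ℝ) (h : e x = 1) : ∃ n : ℤ, x = n := by
  unfold e at h
  rw [Complex.exp_eq_one_iff] at h
  obtain ⟨n, hn⟩ := h
  refine ⟨n, ?_⟩
  have h1 : (2 * Real.pi * Complex.I) ≠ 0 := by
    simp [Real.pi_ne_zero, Complex.I_ne_zero]
  have h2 : ((x : ℂ) - n) * (2 * Real.pi * Complex.I) = 0 := by
    push_cast at hn
    linear_combination hn
  rcases mul_eq_zero.1 h2 with h3 | h3
  · have h4 : (x : ℂ) = ((n : ℝ) : ℂ) := by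
      push_cast
      linear_combination h3
    exact_mod_cast h4
  · exact absurd h3 h1

/-- orthogonality of the additive characters (after `Run7/h373/CR/ApmA.lean`) -/
lemma e_orth (q k : ℕ) (hq : 1 ≤ q) : ∑ b ∈ range q, e ((b : ℝ) * k / q) = if q ∣ k then (q : ℂ) else 0 := by
  have hq0 : (q : ℝ) ≠ 0 := by
    have : (0 : ℝ) < q := by exact_mod_cast hq
    exact this.ne'
  split_ifs with h
  · obtain ⟨l, rfl⟩ := h
    have h1 : ∀ b ∈ range q, e ((b : ℝ) * ((q * l : ℕ) : ℝ) / q) = 1 := by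
      intro b _
      have h2 : (b : ℝ) * ((q * l : ℕ) : ℝ) / q = ((b * l : ℕ) : ℝ) := by
        push_cast
        field_simp
      rw [h2, e_nat]
    rw [sum_congr rfl h1, sum_const, card_range, nsmul_eq_mul, mul_one]
  · set w := e ((k : ℝ) / q) with hw
    have h1 : ∀ b ∈ range q, e ((b : ℝ) * k / q) = w ^ b := by
      intro b _
      rw [hw, e_pow, mul_div_assoc]
    have hw1 : w ≠ 1 := by
      intro h2
      obtain ⟨n, hn⟩ := e_one_int _ h2
      apply h
      rw [div_eq_iff hq0] at hn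
      have h3 : (k : ℤ) = n * q := by exact_mod_cast hn
      have h4 : (q : ℤ) ∣ (k : ℤ) := ⟨n, by rw [h3]; ring⟩
      exact_mod_cast h4
    have hwq : w ^ q = 1 := by
      rw [hw, e_pow, mul_div_cancel₀ _ hq0, e_nat]
    rw [sum_congr rfl h1, geom_sum_eq hw1, hwq, sub_self, zero_div]

lemma e_orth2 (q n c : ℕ) (hc : c < q) :
    ∑ a ∈ range q, e (-((a : ℝ) * c / q)) * e ((a : ℝ) * n / q) = if n % q = c % q then (q : ℂ) else 0 := by
  have hq : 1 ≤ q := by omega
  have hq0 : (q : ℝ) ≠ 0 := by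
    have : (0 : ℝ) < q := by exact_mod_cast hq
    exact this.ne'
  have h1 := e_orth q (n + (q - c)) hq
  have h2 : q ∣ n + (q - c) ↔ n % q = c % q := by
    have h3 : (q : ℤ) ∣ ((n + (q - c) : ℕ) : ℤ) ↔ (q : ℤ) ∣ (n : ℤ) - c := by
      rw [Nat.cast_add, Nat.cast_sub hc.le, show (n : ℤ) + ((q : ℤ) - c) = (n : ℤ) - c + q by ring]
      exact dvd_add_left (dvd_refl _)
    rw [← Int.natCast_dvd_natCast, h3]
    constructor
    · intro h4
      exact ((Nat.modEq_iff_dvd).2 h4).symm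
    · intro h4
      exact (Nat.modEq_iff_dvd).1 (show c ≡ n [MOD q] from h4.symm)
  rw [if_congr h2 rfl rfl] at h1
  rw [← h1]
  refine sum_congr rfl fun a _ => ?_
  rw [← e_add]
  have h3 : (a : ℝ) * ((n + (q - c) : ℕ) : ℝ) / q = -((a : ℝ) * c / q) + (a : ℝ) * n / q + (a : ℕ) := by
    rw [Nat.cast_add, Nat.cast_sub hc.le]
    field_simp
    ring
  rw [h3, e_add _ ((a : ℕ) : ℝ), e_nat, mul_one]

/-- the logarithm on the primes -/
noncomputable def th (n : ℕ) : ℝ := if n.Prime then Real.log n else 0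

lemma th_nonneg (n : ℕ) : 0 ≤ th n := by
  unfold th
  split_ifs
  · exact Real.log_natCast_nonneg n
  · exact le_rfl

lemma th_wt (n : ℕ) : th n * wt n = if n.Prime then 1 else 0 := by
  unfold th wt
  split_ifs with h
  · have : Real.log n ≠ 0 := (Real.log_pos (by exact_mod_cast h.one_lt)).ne'
    field_simp
  · rw [zero_mul]

/-- the error for the primes `≡ c` modulo `q` in a window -/
noncomputable def ER (q c m H : ℕ) : ℝ :=
  ∑ n ∈ (Ioc m (m + H)).filter (fun n => n % q = c % q), th n - (if c.Coprime q then (H : ℝ) / Nat.totient q else 0)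

lemma ER_mod (q c m H : ℕ) : ER q (c % q) m H = ER q c m H := by
  unfold ER
  rw [Nat.mod_mod]
  have h1 : (c % q).Coprime q ↔ c.Coprime q := by
    unfold Nat.Coprime
    rw [← Nat.gcd_rec, Nat.gcd_comm]
  rw [if_congr h1 rfl rfl]

lemma ER_eq (q c m H : ℕ) (hc : c < q) : (ER q c m H : ℂ) = (1 / (q : ℂ)) * ∑ a ∈ range q, e (-((a : ℝ) * c / q)) *
    (∑ n ∈ Ioc m (m + H), (th n : ℂ) * e ((a : ℝ) * n / q) - cc q a * H) := by
  have hq : 1 ≤ q := by omega
  have hqc : (q : ℂ) ≠ 0 := by exact_mod_cast (by omega : q ≠ 0)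
  have h1 : ∑ a ∈ range q, e (-((a : ℝ) * c / q)) * ∑ n ∈ Ioc m (m + H), (th n : ℂ) * e ((a : ℝ) * n / q) =
      q * ∑ n ∈ (Ioc m (m + H)).filter (fun n => n % q = c % q), (th n : ℂ) := by
    simp_rw [mul_sum]
    rw [sum_comm, sum_filter]
    apply sum_congr rfl
    intro n _
    have h2 : ∑ a ∈ range q, e (-((a : ℝ) * c / q)) * ((th n : ℂ) * e ((a : ℝ) * n / q)) =
        (th n : ℂ) * ∑ a ∈ range q, e (-((a : ℝ) * c / q)) * e ((a : ℝ) * n / q) := by
      rw [mul_sum]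
      exact sum_congr rfl fun a _ => by ring
    rw [h2, e_orth2 q n c hc]
    split_ifs
    · ring
    · ring
  have h3 : ∑ a ∈ range q, e (-((a : ℝ) * c / q)) * (cc q a * (H : ℂ)) = q * (if c.Coprime q then (H : ℂ) / Nat.totient q else 0) := by
    unfold cc
    have h4 : ∀ a ∈ range q, e (-((a : ℝ) * c / q)) * ((1 / (Nat.totient q : ℂ)) *
        ∑ b ∈ (Finset.range q).filter (fun b => b.Coprime q), e ((a : ℝ) * b / q) * (H : ℂ)) =
        (H : ℂ) / (Nat.totient q : ℂ) * ∑ b ∈ (Finset.range q).filter (fun b => b.Coprime q), e (-((a : ℝ) * c / q)) * e ((a : ℝ) * b / q) := by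
      intro a _
      rw [← mul_sum, ← sum_mul]
      ring
    have h4' : ∑ a ∈ range q, e (-((a : ℝ) * c / q)) * ((1 / (Nat.totient q : ℂ)) *
        (∑ b ∈ (Finset.range q).filter (fun b => b.Coprime q), e ((a : ℝ) * b / q)) * (H : ℂ)) =
        ∑ a ∈ range q, (H : ℂ) / (Nat.totient q : ℂ) * ∑ b ∈ (Finset.range q).filter (fun b => b.Coprime q),
          e (-((a : ℝ) * c / q)) * e ((a : ℝ) * b / q) := by
      refine sum_congr rfl fun a ha => ?_
      rw [← mul_sum]
      ring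
    rw [h4', ← mul_sum, sum_comm]
    have h5 : ∀ b ∈ (Finset.range q).filter (fun b => b.Coprime q),
        ∑ a ∈ range q, e (-((a : ℝ) * c / q)) * e ((a : ℝ) * b / q) = if b = c then (q : ℂ) else 0 := by
      intro b hb
      rw [mem_filter, mem_range] at hb
      rw [e_orth2 q b c hc, Nat.mod_eq_of_lt hb.1, Nat.mod_eq_of_lt hc]
    rw [sum_congr rfl h5, sum_ite_eq']
    have h6 : c ∈ (Finset.range q).filter (fun b => b.Coprime q) ↔ c.Coprime q := by
      rw [mem_filter, mem_range]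
      exact ⟨fun h => h.2, fun h => ⟨hc, h⟩⟩
    rw [if_congr h6 rfl rfl]
    split_ifs
    · ring
    · ring
  simp_rw [mul_sub]
  rw [sum_sub_distrib, h1, h3, ← mul_sub, ← mul_assoc, one_div, inv_mul_cancel₀ hqc, one_mul]
  unfold ER
  push_cast
  congr 1
  split_ifs
  · push_cast
    rfl
  · rfl

lemma ER_sq (q c m H : ℕ) (hc : c < q) : ER q c m H ^ 2 ≤ (1 / (q : ℝ)) * ∑ a ∈ range q,
    ‖∑ n ∈ Ioc m (m + H), (th n : ℂ) * e ((a : ℝ) * n / q) - cc q a * H‖ ^ 2 := by
  have hq0 : (0 : ℝ) < q := by exact_mod_cast (by omega : 0 < q)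
  set g : ℕ → ℂ := fun a => ∑ n ∈ Ioc m (m + H), (th n : ℂ) * e ((a : ℝ) * n / q) - cc q a * H with hg
  have h1 : |ER q c m H| ≤ (1 / (q : ℝ)) * ∑ a ∈ range q, ‖g a‖ := by
    have h2 := congrArg norm (ER_eq q c m H hc)
    rw [Complex.norm_real, Real.norm_eq_abs] at h2
    rw [h2, norm_mul]
    have h3 : ‖1 / (q : ℂ)‖ = 1 / (q : ℝ) := by
      rw [norm_div, norm_one, Complex.norm_natCast]
    rw [h3]
    apply mul_le_mul_of_nonneg_left _ (by positivity)
    refine (norm_sum_le _ _).trans (sum_le_sum fun a _ => ?_)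
    rw [norm_mul, norm_e, one_mul]
  have h2 : (∑ a ∈ range q, ‖g a‖) ^ 2 ≤ q * ∑ a ∈ range q, ‖g a‖ ^ 2 := by
    have h3 := sq_sum_le_card_mul_sum_sq (s := range q) (f := fun a => ‖g a‖)
    rwa [card_range] at h3
  calc ER q c m H ^ 2 = |ER q c m H| ^ 2 := (sq_abs _).symm
    _ ≤ ((1 / (q : ℝ)) * ∑ a ∈ range q, ‖g a‖) ^ 2 := pow_le_pow_left₀ (abs_nonneg _) h1 2
    _ = (1 / (q : ℝ)) ^ 2 * (∑ a ∈ range q, ‖g a‖) ^ 2 := by ring
    _ ≤ (1 / (q : ℝ)) ^ 2 * (q * ∑ a ∈ range q, ‖g a‖ ^ 2) := mul_le_mul_of_nonneg_left h2 (by positivity)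
    _ = (1 / (q : ℝ)) * ∑ a ∈ range q, ‖g a‖ ^ 2 := by
        field_simp

/-- each number lies in at most `H` windows of length `H` -/
lemma sum_win (x H : ℕ) (g : ℕ → ℝ) (hg : ∀ n, 0 ≤ g n) :
    ∑ m ∈ Ioc x (2 * x), ∑ n ∈ Ioc m (m + H), g n ≤ H * ∑ n ∈ Ioc x (2 * x + H), g n := by
  have h1 : ∀ m ∈ Ioc x (2 * x), ∑ n ∈ Ioc m (m + H), g n = ∑ j ∈ Icc 1 H, g (m + j) := by
    intro m _
    refine sum_nbij' (fun n => n - m) (fun j => m + j) ?_ ?_ ?_ ?_ ?_
    · intro n hn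
      rw [mem_Ioc] at hn; rw [mem_Icc]; omega
    · intro j hj
      rw [mem_Icc] at hj; rw [mem_Ioc]; omega
    · intro n hn
      rw [mem_Ioc] at hn; omega
    · intro j hj
      omega
    · intro n hn
      rw [mem_Ioc] at hn
      rw [show m + (n - m) = n by omega]
  rw [sum_congr rfl h1, sum_comm]
  have h2 : ∀ j ∈ Icc 1 H, ∑ m ∈ Ioc x (2 * x), g (m + j) ≤ ∑ n ∈ Ioc x (2 * x + H), g n := by
    intro j hj
    rw [mem_Icc] at hj
    have h3 : ∑ m ∈ Ioc x (2 * x), g (m + j) = ∑ n ∈ (Ioc x (2 * x)).map (addRightEmbedding j), g n := by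
      rw [sum_map]
      rfl
    rw [h3]
    apply sum_le_sum_of_subset_of_nonneg
    · intro n hn
      rw [Finset.mem_map] at hn
      obtain ⟨m, hm, rfl⟩ := hn
      rw [mem_Ioc] at hm
      rw [addRightEmbedding_apply, mem_Ioc]
      omega
    · intro n _ _
      exact hg n
  refine (sum_le_sum h2).trans ?_
  rw [sum_const, Nat.card_Icc, nsmul_eq_mul, Nat.add_sub_cancel]

/-- the difference to the von Mangoldt function -/
noncomputable def dd (n : ℕ) : ℝ := |th n - ArithmeticFunction.vonMangoldt n|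

lemma dd_sum (x : ℕ) (hx : 4 ≤ x) : ∑ n ∈ Ioc x (4 * x), dd n ≤ 24 * √x * Real.log x ^ 2 := by
  have hxr : (4 : ℝ) ≤ x := by exact_mod_cast hx
  have hL : Real.log ((4 * x : ℕ) : ℝ) ≤ 2 * Real.log x := by
    rw [show (2 : ℝ) * Real.log x = Real.log ((x : ℝ) ^ 2) by rw [Real.log_pow]; norm_num]
    apply Real.log_le_log
    · push_cast; linarith
    · push_cast; nlinarith
  have hL0 : 0 ≤ Real.log ((4 * x : ℕ) : ℝ) := Real.log_natCast_nonneg _
  have h1 : ∀ n ∈ Ioc x (4 * x), dd n ≤ Real.log ((4 * x : ℕ) : ℝ) *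
      |(if n.Prime then (1 : ℝ) else 0) - ArithmeticFunction.vonMangoldt n * wt n| := by
    intro n hn
    rw [mem_Ioc] at hn
    have hn0 : (1 : ℝ) < n := by exact_mod_cast (by omega : 1 < n)
    have hl : 0 < Real.log n := Real.log_pos hn0
    have h2 : th n - ArithmeticFunction.vonMangoldt n =
        Real.log n * ((if n.Prime then (1 : ℝ) else 0) - ArithmeticFunction.vonMangoldt n * wt n) := by
      unfold th wt
      split_ifs
      · field_simp
      · field_simp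
        ring
    unfold dd
    rw [h2, abs_mul, abs_of_pos hl]
    apply mul_le_mul_of_nonneg_right _ (abs_nonneg _)
    apply Real.log_le_log (by linarith)
    exact_mod_cast hn.2
  refine (sum_le_sum h1).trans ?_
  rw [← mul_sum]
  have h2 : ∑ n ∈ Ioc x (4 * x), |(if n.Prime then (1 : ℝ) else 0) - ArithmeticFunction.vonMangoldt n * wt n| ≤
      3 * √((4 * x : ℕ) : ℝ) * Real.log ((4 * x : ℕ) : ℝ) := by
    refine le_trans ?_ (pp_sum (4 * x) (by omega))
    apply sum_le_sum_of_subset_of_nonneg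
    · intro n hn
      rw [mem_Ioc] at hn
      rw [mem_Icc]
      omega
    · intro n _ _
      exact abs_nonneg _
  have h3 : √((4 * x : ℕ) : ℝ) = 2 * √x := by
    rw [show ((4 * x : ℕ) : ℝ) = 2 ^ 2 * (x : ℝ) by push_cast; ring, Real.sqrt_mul (by norm_num), Real.sqrt_sq (by norm_num)]
  rw [h3] at h2
  calc Real.log ((4 * x : ℕ) : ℝ) * ∑ n ∈ Ioc x (4 * x), |(if n.Prime then (1 : ℝ) else 0) - ArithmeticFunction.vonMangoldt n * wt n|
      ≤ Real.log ((4 * x : ℕ) : ℝ) * (3 * (2 * √x) * Real.log ((4 * x : ℕ) : ℝ)) := mul_le_mul_of_nonneg_left h2 hL0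
    _ ≤ (2 * Real.log x) * (3 * (2 * √x) * (2 * Real.log x)) := by gcongr
    _ = 24 * √x * Real.log x ^ 2 := by ring

end Run7.h212.A
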