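import Pool.Agent.Run7.h285.A.Stm
import Pool.Agent.H442R2.EHI.Core2
import Pool.Agent.Run7.h212.A.PAWa

/-!
# Piece A:PAW of the project GENP (helper285): primes in progressions in almost all short windows, all lengths at once
-/

set_option autoImplicit false

namespace Run7.h212.A

open Finset Filter
open Run7.h285.A (S_PAW)
open Pool.Agent.Q236.CR (S_SIA cc)
open Pool.Agent.H469R2.NK (e norm_e e_add e_nat e_zero)
open Pool.Agent.TH892.SW (wt wt_nonneg wt_anti pp_sum)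
open Pool.Agent.H442R2.EHI (evt_log_pow evt_log_ge)

/-- the mean squares -/
theorem er_ms (hS : S_SIA) (A U : ℕ) : ∃ C X₀ : ℕ, ∀ x : ℕ, X₀ ≤ x → ∀ q c : ℕ, 1 ≤ q → (q : ℝ) ≤ Real.log x ^ A → ∀ H : ℕ,
    (x : ℝ) ^ (1 / 3 : ℝ) * Real.log x ^ C ≤ H → H ≤ x →
    ∑ m ∈ Ioc x (2 * x), ER q c m H ^ 2 ≤ x * (H : ℝ) ^ 2 / Real.log x ^ U := by
  obtain ⟨C, X1, hs⟩ := hS A (U + 2)
  obtain ⟨X2, hX2⟩ := eventually_atTop.1 ((evt_log_ge 1152).and ((evt_log_pow (U + 6) (1 / 3) (by norm_num)).and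
    (eventually_ge_atTop 4)))
  refine ⟨C, max X1 X2, fun x hx q c hq hqL H hH hHx => ?_⟩
  obtain ⟨hL, hLp, hx4⟩ := hX2 x (le_of_max_le_right hx)
  have hxs := hs x (le_of_max_le_left hx) q hq hqL
  obtain ⟨L, hLd⟩ : ∃ L, L = Real.log x := ⟨_, rfl⟩
  rw [← hLd] at hL hLp hH hxs ⊢
  have hL0 : 0 < L := by linarith
  have hL1 : 1 ≤ L := by linarith
  have hx0 : (0 : ℝ) < x := by exact_mod_cast (by omega : 0 < x)
  have hH0 : L ^ (U + 6) ≤ H := by
    refine hLp.trans (le_trans ?_ hH)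
    have : (0 : ℝ) ≤ (x : ℝ) ^ (1 / 3 : ℝ) := by positivity
    have h1 : 1 ≤ L ^ C := one_le_pow₀ hL1
    nlinarith
  have hHp : (0 : ℝ) < H := lt_of_lt_of_le (by positivity) hH0
  obtain ⟨S, hSd⟩ : ∃ S, S = ∑ n ∈ Ioc x (4 * x), dd n := ⟨_, rfl⟩
  have hS0 : 0 ≤ S := by rw [hSd]; exact sum_nonneg fun n _ => abs_nonneg _
  have hSle : S ≤ 24 * √x * L ^ 2 := by rw [hSd, hLd]; exact dd_sum x hx4
  have hwin : ∀ m ∈ Ioc x (2 * x), ∑ n ∈ Ioc m (m + H), dd n ≤ S := by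
    intro m hm
    rw [mem_Ioc] at hm
    rw [hSd]
    apply sum_le_sum_of_subset_of_nonneg
    · intro n hn
      rw [mem_Ioc] at hn ⊢
      omega
    · intro n _ _
      exact abs_nonneg _
  have hdd : ∑ m ∈ Ioc x (2 * x), (∑ n ∈ Ioc m (m + H), dd n) ^ 2 ≤ S ^ 2 * H := by
    have h1 : ∀ m ∈ Ioc x (2 * x), (∑ n ∈ Ioc m (m + H), dd n) ^ 2 ≤ S * ∑ n ∈ Ioc m (m + H), dd n := by
      intro m hm
      rw [sq]
      exact mul_le_mul_of_nonneg_right (hwin m hm) (sum_nonneg fun n _ => abs_nonneg _)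
    refine (sum_le_sum h1).trans ?_
    rw [← mul_sum]
    have h2 := sum_win x H dd (fun n => abs_nonneg _)
    have h3 : ∑ n ∈ Ioc x (2 * x + H), dd n ≤ S := by
      rw [hSd]
      apply sum_le_sum_of_subset_of_nonneg
      · intro n hn
        rw [mem_Ioc] at hn ⊢
        omega
      · intro n _ _
        exact abs_nonneg _
    calc S * ∑ m ∈ Ioc x (2 * x), ∑ n ∈ Ioc m (m + H), dd n ≤ S * (H * S) :=
          mul_le_mul_of_nonneg_left (h2.trans (mul_le_mul_of_nonneg_left h3 hHp.le)) hS0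
      _ = S ^ 2 * H := by ring
  have hS2 : 2 * (S ^ 2 * H) ≤ x * (H : ℝ) ^ 2 / L ^ (U + 1) := by
    have h1 : S ^ 2 ≤ 576 * x * L ^ 4 := by
      calc S ^ 2 ≤ (24 * √x * L ^ 2) ^ 2 := pow_le_pow_left₀ hS0 hSle 2
        _ = 576 * (√x) ^ 2 * L ^ 4 := by ring
        _ = 576 * x * L ^ 4 := by rw [Real.sq_sqrt hx0.le]
    rw [le_div_iff₀ (by positivity)]
    have h2 : 1152 * L ^ (U + 5) ≤ H := by
      calc 1152 * L ^ (U + 5) ≤ L * L ^ (U + 5) := mul_le_mul_of_nonneg_right hL (by positivity)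
        _ = L ^ (U + 6) := by ring
        _ ≤ H := hH0
    calc 2 * (S ^ 2 * H) * L ^ (U + 1) ≤ 2 * ((576 * x * L ^ 4) * H) * L ^ (U + 1) := by gcongr
      _ = x * H * (1152 * L ^ (U + 5)) := by ring
      _ ≤ x * H * H := mul_le_mul_of_nonneg_left h2 (by positivity)
      _ = x * (H : ℝ) ^ 2 := by ring
  have key : ∀ a : ℕ, ∑ m ∈ Ioc x (2 * x), ‖∑ n ∈ Ioc m (m + H), (th n : ℂ) * e ((a : ℝ) * n / q) - cc q a * H‖ ^ 2 ≤
      x * (H : ℝ) ^ 2 / L ^ U := by
    intro a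
    have h1 := (hxs a H hH hHx).1
    have h2 : ∀ m ∈ Ioc x (2 * x), ‖∑ n ∈ Ioc m (m + H), (th n : ℂ) * e ((a : ℝ) * n / q) - cc q a * H‖ ^ 2 ≤
        2 * ‖∑ n ∈ Ioc m (m + H), (ArithmeticFunction.vonMangoldt n : ℂ) * e ((a : ℝ) * n / q) - cc q a * H‖ ^ 2 +
          2 * (∑ n ∈ Ioc m (m + H), dd n) ^ 2 := by
      intro m _
      have h3 : ∑ n ∈ Ioc m (m + H), (th n : ℂ) * e ((a : ℝ) * n / q) - cc q a * H =
          (∑ n ∈ Ioc m (m + H), (ArithmeticFunction.vonMangoldt n : ℂ) * e ((a : ℝ) * n / q) - cc q a * H) +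
            ∑ n ∈ Ioc m (m + H), ((th n - ArithmeticFunction.vonMangoldt n : ℝ) : ℂ) * e ((a : ℝ) * n / q) := by
        have h4 : ∀ n ∈ Ioc m (m + H), ((th n - ArithmeticFunction.vonMangoldt n : ℝ) : ℂ) * e ((a : ℝ) * n / q) =
            (th n : ℂ) * e ((a : ℝ) * n / q) - (ArithmeticFunction.vonMangoldt n : ℂ) * e ((a : ℝ) * n / q) := by
          intro n _
          push_cast
          ring
        rw [sum_congr rfl h4, sum_sub_distrib]
        ring
      have h5 : ‖∑ n ∈ Ioc m (m + H), ((th n - ArithmeticFunction.vonMangoldt n : ℝ) : ℂ) * e ((a : ℝ) * n / q)‖ ≤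
          ∑ n ∈ Ioc m (m + H), dd n := by
        refine (norm_sum_le _ _).trans (le_of_eq (sum_congr rfl fun n _ => ?_))
        rw [norm_mul, norm_e, mul_one, Complex.norm_real, Real.norm_eq_abs]
        rfl
      rw [h3]
      have h6 := norm_add_le (∑ n ∈ Ioc m (m + H), (ArithmeticFunction.vonMangoldt n : ℂ) * e ((a : ℝ) * n / q) - cc q a * H)
        (∑ n ∈ Ioc m (m + H), ((th n - ArithmeticFunction.vonMangoldt n : ℝ) : ℂ) * e ((a : ℝ) * n / q))
      generalize ‖∑ n ∈ Ioc m (m + H), (ArithmeticFunction.vonMangoldt n : ℂ) * e ((a : ℝ) * n / q) - cc q a * H‖ = u at *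
      generalize ∑ n ∈ Ioc m (m + H), dd n = v at *
      have h7 := h6.trans (add_le_add_right h5 u)
      have h8 := pow_le_pow_left₀ (norm_nonneg _) h7 2
      nlinarith [sq_nonneg (u - v)]
    refine (sum_le_sum h2).trans ?_
    rw [sum_add_distrib, ← mul_sum, ← mul_sum]
    have h3 : 2 * (x * (H : ℝ) ^ 2 / L ^ (U + 2)) + x * (H : ℝ) ^ 2 / L ^ (U + 1) ≤ x * (H : ℝ) ^ 2 / L ^ U := by
      have e1 : x * (H : ℝ) ^ 2 / L ^ (U + 2) = x * (H : ℝ) ^ 2 / L ^ U / L ^ 2 := by rw [pow_add]; field_simp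
      have e2 : x * (H : ℝ) ^ 2 / L ^ (U + 1) = x * (H : ℝ) ^ 2 / L ^ U / L := by rw [pow_succ L U, div_mul_eq_div_div]
      have h4 : 0 ≤ x * (H : ℝ) ^ 2 / L ^ U := by positivity
      rw [e1, e2]
      generalize x * (H : ℝ) ^ 2 / L ^ U = w at *
      have h5 : w / L ≤ w / 2 := div_le_div_of_nonneg_left h4 (by norm_num) (by linarith)
      have h6 : w / L ^ 2 ≤ w / 4 := div_le_div_of_nonneg_left h4 (by norm_num) (by nlinarith)
      linarith
    have h4 := mul_le_mul_of_nonneg_left hdd (show (0 : ℝ) ≤ 2 by norm_num)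
    linarith
  have hqr : (0 : ℝ) < q := by exact_mod_cast hq
  calc ∑ m ∈ Ioc x (2 * x), ER q c m H ^ 2 ≤ ∑ m ∈ Ioc x (2 * x), (1 / (q : ℝ)) * ∑ a ∈ range q,
        ‖∑ n ∈ Ioc m (m + H), (th n : ℂ) * e ((a : ℝ) * n / q) - cc q a * H‖ ^ 2 := by
        refine sum_le_sum fun m _ => ?_
        rw [← ER_mod]
        exact ER_sq q (c % q) m H (Nat.mod_lt _ hq)
    _ = (1 / (q : ℝ)) * ∑ a ∈ range q, ∑ m ∈ Ioc x (2 * x),
        ‖∑ n ∈ Ioc m (m + H), (th n : ℂ) * e ((a : ℝ) * n / q) - cc q a * H‖ ^ 2 := by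
        rw [← mul_sum, sum_comm]
    _ ≤ (1 / (q : ℝ)) * ∑ _a ∈ range q, x * (H : ℝ) ^ 2 / L ^ U :=
        mul_le_mul_of_nonneg_left (sum_le_sum fun a _ => key a) (by positivity)
    _ = x * (H : ℝ) ^ 2 / L ^ U := by
        rw [sum_const, card_range, nsmul_eq_mul, ← mul_assoc, one_div, inv_mul_cancel₀ hqr.ne', one_mul]

/-- Abel summation -/
lemma abel_win (w ε : ℕ → ℝ) (m H : ℕ) (M : ℝ) (hw0 : 0 ≤ w (m + H)) (hw : ∀ j < H, w (m + (j + 1)) ≤ w (m + j))
    (hM : ∀ t ≤ H, |∑ n ∈ Ioc m (m + t), ε n| ≤ M) : |∑ n ∈ Ioc m (m + H), w n * ε n| ≤ w m * M := by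
  have h1 : ∀ t : ℕ, ∑ n ∈ Ioc m (m + t), w n * ε n = w (m + t) * ∑ n ∈ Ioc m (m + t), ε n +
      ∑ j ∈ range t, (w (m + j) - w (m + (j + 1))) * ∑ n ∈ Ioc m (m + j), ε n := by
    intro t
    induction t with
    | zero => simp
    | succ t ih =>
      have h2 : Ioc m (m + (t + 1)) = insert (m + (t + 1)) (Ioc m (m + t)) := by
        ext n
        rw [mem_insert, mem_Ioc, mem_Ioc]
        omega
      have h3 : m + (t + 1) ∉ Ioc m (m + t) := by
        rw [mem_Ioc]; omega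
      rw [h2, sum_insert h3, sum_insert h3, sum_range_succ, ih]
      ring
  rw [h1]
  have hM0 : 0 ≤ M := (abs_nonneg _).trans (hM 0 (Nat.zero_le _))
  refine (abs_add_le _ _).trans ?_
  rw [abs_mul, abs_of_nonneg hw0]
  have h2 : |∑ j ∈ range H, (w (m + j) - w (m + (j + 1))) * ∑ n ∈ Ioc m (m + j), ε n| ≤
      ∑ j ∈ range H, (w (m + j) - w (m + (j + 1))) * M := by
    refine (abs_sum_le_sum_abs _ _).trans (sum_le_sum fun j hj => ?_)
    rw [mem_range] at hj
    rw [abs_mul, abs_of_nonneg (sub_nonneg.2 (hw j hj))]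
    exact mul_le_mul_of_nonneg_left (hM j hj.le) (sub_nonneg.2 (hw j hj))
  have h3 : ∑ j ∈ range H, (w (m + j) - w (m + (j + 1))) * M = (w m - w (m + H)) * M := by
    rw [← sum_mul, sum_range_sub' (fun j => w (m + j)) H, add_zero]
  have h4 := mul_le_mul_of_nonneg_left (hM H le_rfl) hw0
  rw [h3] at h2
  calc w (m + H) * |∑ n ∈ Ioc m (m + H), ε n| + |∑ j ∈ range H, (w (m + j) - w (m + (j + 1))) * ∑ n ∈ Ioc m (m + j), ε n|
      ≤ w (m + H) * M + (w m - w (m + H)) * M := add_le_add h4 h2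
    _ = w m * M := by ring

/-- the summands of the error -/
noncomputable def ep (q c n : ℕ) : ℝ := (if n % q = c % q then th n else 0) - (if c.Coprime q then 1 / (Nat.totient q : ℝ) else 0)

lemma ep_sum (q c m H : ℕ) : ∑ n ∈ Ioc m (m + H), ep q c n = ER q c m H := by
  unfold ep ER
  rw [sum_sub_distrib, ← sum_filter, sum_const, Nat.card_Ioc, nsmul_eq_mul, Nat.add_sub_cancel_left]
  congr 1
  split_ifs
  · ring
  · ring

lemma ER_diff (Y q c m t t' : ℕ) (hq : 1 ≤ q) (hY : 4 ≤ Y) (hm : m ≤ 2 * Y) (ht' : t' ≤ t) (ht : t ≤ Y) (hL : 1 ≤ Real.log Y) :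
    |ER q c m t - ER q c m t'| ≤ ((t : ℝ) - t') * (3 * Real.log Y) := by
  have h1 : ER q c m t - ER q c m t' = ∑ n ∈ Ioc (m + t') (m + t), ep q c n := by
    rw [← ep_sum, ← ep_sum]
    have h2 : Ioc m (m + t) = Ioc m (m + t') ∪ Ioc (m + t') (m + t) := (Ioc_union_Ioc_eq_Ioc (by omega) (by omega)).symm
    rw [h2, sum_union (by
      rw [disjoint_left]
      intro n hn hn'
      rw [mem_Ioc] at hn hn'
      omega)]
    ring
  have h3 : ∀ n ∈ Ioc (m + t') (m + t), |ep q c n| ≤ 3 * Real.log Y := by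
    intro n hn
    rw [mem_Ioc] at hn
    have hYr : (4 : ℝ) ≤ Y := by exact_mod_cast hY
    have h4 : th n ≤ 2 * Real.log Y := by
      unfold th
      split_ifs with hp
      · rw [show (2 : ℝ) * Real.log Y = Real.log ((Y : ℝ) ^ 2) by rw [Real.log_pow]; norm_num]
        apply Real.log_le_log (by exact_mod_cast hp.pos)
        have h5 : (n : ℝ) ≤ 3 * Y := by exact_mod_cast (by omega : n ≤ 3 * Y)
        nlinarith
      · linarith
    have h5 := th_nonneg n
    have h6 : 0 ≤ 1 / (Nat.totient q : ℝ) ∧ 1 / (Nat.totient q : ℝ) ≤ 1 := by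
      have h7 : (1 : ℝ) ≤ (Nat.totient q : ℝ) := by exact_mod_cast Nat.totient_pos.2 hq
      exact ⟨by positivity, by rw [div_le_one (by linarith)]; exact h7⟩
    unfold ep
    rw [abs_le]
    constructor <;> split_ifs <;> linarith [h6.1, h6.2]
  rw [h1]
  refine (abs_sum_le_sum_abs _ _).trans ((sum_le_sum h3).trans (le_of_eq ?_))
  rw [sum_const, Nat.card_Ioc, nsmul_eq_mul, show m + t - (m + t') = t - t' by omega, Nat.cast_sub ht']

set_option maxHeartbeats 2000000 in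
theorem paw (hS : S_SIA) : S_PAW := by
  classical
  intro A U
  obtain ⟨C, X1, hms⟩ := er_ms hS A (5 * A + 12 + U)
  obtain ⟨X2, hX2⟩ := eventually_atTop.1 ((evt_log_ge 1000).and ((evt_log_pow (A + 5) (1 / 3) (by norm_num)).and
    (eventually_ge_atTop 4)))
  refine ⟨C + A + 6, max X1 X2, fun Y hY => ?_⟩
  obtain ⟨hL, hLp, hY4⟩ := hX2 Y (le_of_max_le_right hY)
  have hmsY := hms Y (le_of_max_le_left hY)
  have hL1' : 1 ≤ Real.log Y := by linarith
  have hdiff := fun q c m t t' hq hm ht' ht => ER_diff Y q c m t t' hq hY4 hm ht' ht hL1'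
  obtain ⟨L, hLd⟩ : ∃ L, L = Real.log Y := ⟨_, rfl⟩
  rw [← hLd] at hL hLp hmsY hdiff ⊢
  have hL0 : 0 < L := by linarith
  have hL1 : 1 ≤ L := by linarith
  have hYr : (4 : ℝ) ≤ Y := by exact_mod_cast hY4
  have hY0 : (0 : ℝ) < Y := by linarith
  obtain ⟨T, hT⟩ : ∃ T, T = (Y : ℝ) ^ (1 / 3 : ℝ) := ⟨_, rfl⟩
  rw [← hT] at hLp hmsY ⊢
  have hT0 : 0 < T := by rw [hT]; positivity
  obtain ⟨Q, hQ⟩ : ∃ Q, Q = ⌊L ^ A⌋₊ := ⟨_, rfl⟩
  obtain ⟨N, hN⟩ : ∃ N, N = ⌊L ^ (A + 3)⌋₊ + 1 := ⟨_, rfl⟩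
  obtain ⟨Rm, hRm⟩ : ∃ Rm, Rm = Nat.log 2 Y + 1 := ⟨_, rfl⟩
  have hQle : (Q : ℝ) ≤ L ^ A := by rw [hQ]; exact Nat.floor_le (by positivity)
  have hNge : L ^ (A + 3) ≤ N := by
    rw [hN]; push_cast
    exact (Nat.lt_floor_add_one _).le
  have hNle : (N : ℝ) ≤ L ^ (A + 3) + 1 := by
    rw [hN]; push_cast
    have := Nat.floor_le (show 0 ≤ L ^ (A + 3) by positivity)
    linarith
  have hLA3 : 1 ≤ L ^ (A + 3) := one_le_pow₀ hL1
  have hN2 : (2 : ℝ) * N ≤ L ^ (A + 4) := by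
    calc (2 : ℝ) * N ≤ 4 * L ^ (A + 3) := by linarith
      _ ≤ L * L ^ (A + 3) := mul_le_mul_of_nonneg_right (by linarith) (by positivity)
      _ = L ^ (A + 4) := by ring
  have hN2n : 2 ≤ N := by
    have h1 : (1 : ℝ) < N := by
      have h2 : L ≤ L ^ (A + 3) := le_self_pow₀ hL1 (by omega)
      linarith
    exact_mod_cast h1
  have hNT : (N : ℝ) ≤ T := by
    have h1 : L ^ (A + 4) ≤ L ^ (A + 5) := pow_le_pow_right₀ hL1 (by omega)
    linarith
  have hRmle : (Rm : ℝ) ≤ L ^ 2 := by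
    have h1 : (Nat.log 2 Y : ℝ) * Real.log 2 ≤ L := by
      have h2 : (2 : ℝ) ^ (Nat.log 2 Y) ≤ Y := by exact_mod_cast Nat.pow_log_le_self 2 (by omega)
      have h3 := Real.log_le_log (by positivity) h2
      rw [Real.log_pow] at h3
      rw [hLd]; exact h3
    have h2 : (0.5 : ℝ) < Real.log 2 := by have := Real.log_two_gt_d9; linarith
    have h3 : (Nat.log 2 Y : ℝ) * 0.5 ≤ Nat.log 2 Y * Real.log 2 := mul_le_mul_of_nonneg_left h2.le (Nat.cast_nonneg _)
    rw [hRm]; push_cast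
    nlinarith
  obtain ⟨Idx, hIdx⟩ : ∃ Idx : Finset (ℕ × ℕ × ℕ × ℕ), Idx = (Icc 1 Q ×ˢ (range Q ×ˢ (range (2 * N) ×ˢ range Rm))).filter
    (fun v => T * L ^ C ≤ ((v.2.2.1 * 2 ^ v.2.2.2 : ℕ) : ℝ) ∧ v.2.2.1 * 2 ^ v.2.2.2 ≤ Y) := ⟨_, rfl⟩
  obtain ⟨bad, hbad⟩ : ∃ bad : ℕ × ℕ × ℕ × ℕ → Finset ℕ, bad = fun v => (Ioc Y (2 * Y)).filter
    (fun m => ((v.2.2.1 * 2 ^ v.2.2.2 : ℕ) : ℝ) / L ^ (A + 3) < |ER v.1 v.2.1 m (v.2.2.1 * 2 ^ v.2.2.2)|) := ⟨_, rfl⟩
  have hbc : ∀ v ∈ Idx, (#(bad v) : ℝ) ≤ Y * L ^ (2 * A + 6) / L ^ (5 * A + 12 + U) := by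
    intro v hv
    rw [hIdx, mem_filter, mem_product, mem_product, mem_product, mem_Icc, mem_range, mem_range, mem_range] at hv
    obtain ⟨⟨hv1, hv2, hv3, hv4⟩, hv5, hv6⟩ := hv
    obtain ⟨H', hH'⟩ : ∃ H', H' = v.2.2.1 * 2 ^ v.2.2.2 := ⟨_, rfl⟩
    rw [← hH'] at hv5 hv6
    have hq : (v.1 : ℝ) ≤ L ^ A := le_trans (by exact_mod_cast hv1.2) hQle
    have h1 := hmsY v.1 v.2.1 hv1.1 hq H' hv5 hv6
    have hH0 : (0 : ℝ) < H' := lt_of_lt_of_le (by positivity) hv5
    have h2 : (#(bad v) : ℝ) * ((H' : ℝ) / L ^ (A + 3)) ^ 2 ≤ ∑ m ∈ Ioc Y (2 * Y), ER v.1 v.2.1 m H' ^ 2 := by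
      have h3 : ∑ m ∈ bad v, ER v.1 v.2.1 m H' ^ 2 ≤ ∑ m ∈ Ioc Y (2 * Y), ER v.1 v.2.1 m H' ^ 2 := by
        apply sum_le_sum_of_subset_of_nonneg
        · rw [hbad]; exact filter_subset _ _
        · intro m _ _; exact sq_nonneg _
      refine le_trans ?_ h3
      rw [← nsmul_eq_mul]
      apply card_nsmul_le_sum
      intro m hm
      rw [hbad, mem_filter, ← hH'] at hm
      calc ((H' : ℝ) / L ^ (A + 3)) ^ 2 ≤ |ER v.1 v.2.1 m H'| ^ 2 :=
            pow_le_pow_left₀ (by positivity) hm.2.le 2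
        _ = _ := sq_abs _
    have h3 := h2.trans h1
    have h4 : (#(bad v) : ℝ) * ((H' : ℝ) / L ^ (A + 3)) ^ 2 = (#(bad v) : ℝ) / L ^ (2 * A + 6) * (H' : ℝ) ^ 2 := by
      rw [show 2 * A + 6 = (A + 3) * 2 by ring, pow_mul, div_pow]
      ring
    have h5 : Y * (H' : ℝ) ^ 2 / L ^ (5 * A + 12 + U) = Y / L ^ (5 * A + 12 + U) * (H' : ℝ) ^ 2 := by ring
    rw [h4, h5] at h3
    have h6 := le_of_mul_le_mul_right h3 (by positivity)
    rw [div_le_iff₀ (by positivity)] at h6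
    calc (#(bad v) : ℝ) ≤ Y / L ^ (5 * A + 12 + U) * L ^ (2 * A + 6) := h6
      _ = _ := by ring
  have hIc : (#Idx : ℝ) ≤ L ^ (3 * A + 6) := by
    have h1 : #Idx ≤ Q * (Q * (2 * N * Rm)) := by
      rw [hIdx]
      refine (card_filter_le _ _).trans ?_
      rw [card_product, card_product, card_product, Nat.card_Icc, card_range, card_range, card_range, Nat.add_sub_cancel]
    calc (#Idx : ℝ) ≤ ((Q * (Q * (2 * N * Rm)) : ℕ) : ℝ) := by exact_mod_cast h1
      _ = Q * (Q * ((2 * N) * Rm)) := by push_cast; ring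
      _ ≤ L ^ A * (L ^ A * (L ^ (A + 4) * L ^ 2)) := by gcongr
      _ = L ^ (3 * A + 6) := by
          rw [← pow_add, ← pow_add, ← pow_add]
          congr 1
          ring
  refine ⟨Idx.biUnion bad, ?_, ?_, ?_⟩
  · intro m hm
    rw [mem_biUnion] at hm
    obtain ⟨v, _, hm⟩ := hm
    rw [hbad, mem_filter] at hm
    exact hm.1
  · have h1 : (#(Idx.biUnion bad) : ℝ) ≤ ∑ v ∈ Idx, (#(bad v) : ℝ) := by exact_mod_cast card_biUnion_le
    refine h1.trans ((sum_le_sum hbc).trans ?_)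
    rw [sum_const, nsmul_eq_mul]
    calc (#Idx : ℝ) * (Y * L ^ (2 * A + 6) / L ^ (5 * A + 12 + U)) ≤
        L ^ (3 * A + 6) * (Y * L ^ (2 * A + 6) / L ^ (5 * A + 12 + U)) := mul_le_mul_of_nonneg_right hIc (by positivity)
      _ = Y / L ^ U := by
          have h2 : L ^ (5 * A + 12 + U) = L ^ (3 * A + 6) * L ^ (2 * A + 6) * L ^ U := by
            rw [← pow_add, ← pow_add]
            congr 1
            ring
          rw [h2]
          field_simp
  · intro m hm hmB H hH hHY q c hq hqL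
    rw [mem_Ioc] at hm
    have hm2 : m ≤ 2 * Y := hm.2
    -- long windows
    have hlong : ∀ t : ℕ, t ≤ Y → T * L ^ (C + 1) ≤ t → |ER q c m t| ≤ t / L ^ (A + 1) := by
      intro t ht hTt
      have htT : T ≤ t := by
        refine le_trans ?_ hTt
        have h1 : 1 ≤ L ^ (C + 1) := one_le_pow₀ hL1
        nlinarith
      have htN : N ≤ t := by exact_mod_cast hNT.trans htT
      have hN0 : 0 < N := by omega
      obtain ⟨r, hr⟩ : ∃ r, r = Nat.log 2 (t / N) := ⟨_, rfl⟩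
      have htN0 : t / N ≠ 0 := (Nat.div_pos htN hN0).ne'
      have hr1 : 2 ^ r ≤ t / N := by rw [hr]; exact Nat.pow_log_le_self 2 htN0
      have hr2 : t / N < 2 ^ (r + 1) := by rw [hr]; exact Nat.lt_pow_succ_log_self (by norm_num) _
      have hr3 : 2 ^ r * N ≤ t := (Nat.le_div_iff_mul_le hN0).1 hr1
      have hr4 : t < 2 ^ (r + 1) * N := (Nat.div_lt_iff_lt_mul hN0).1 hr2
      have hp0 : 0 < 2 ^ r := by positivity
      obtain ⟨s, hs⟩ : ∃ s, s = t / 2 ^ r := ⟨_, rfl⟩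
      have hs1 : s * 2 ^ r ≤ t := by rw [hs]; exact Nat.div_mul_le_self t _
      have hs2 : t < s * 2 ^ r + 2 ^ r := by
        rw [hs]
        have := Nat.lt_div_mul_add (a := t) hp0
        exact this
      have hs3 : s < 2 * N := by
        rw [hs, Nat.div_lt_iff_lt_mul hp0]
        calc t < 2 ^ (r + 1) * N := hr4
          _ = 2 * N * 2 ^ r := by rw [pow_succ]; ring
      have hrR : r < Rm := by
        rw [hRm, Nat.lt_succ_iff]
        apply Nat.le_log_of_pow_le (by norm_num)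
        exact hr1.trans ((Nat.div_le_self _ _).trans ht)
      obtain ⟨H', hH'⟩ : ∃ H', H' = s * 2 ^ r := ⟨_, rfl⟩
      rw [← hH'] at hs1 hs2
      have hdN : ((t : ℝ) - H') * N ≤ t := by
        have h1 : (t : ℝ) - H' ≤ 2 ^ r := by
          have h2 : (t : ℝ) ≤ H' + 2 ^ r := by exact_mod_cast hs2.le
          linarith
        have h2 : ((2 : ℝ) ^ r) * N ≤ t := by exact_mod_cast hr3
        exact (mul_le_mul_of_nonneg_right h1 (Nat.cast_nonneg _)).trans h2
      have hd0 : 0 ≤ (t : ℝ) - H' := by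
        have : (H' : ℝ) ≤ t := by exact_mod_cast hs1
        linarith
      have hN2r : (2 : ℝ) ≤ N := by exact_mod_cast hN2n
      have hhalf : (t : ℝ) ≤ 2 * H' := by nlinarith
      have hHT : T * L ^ C ≤ H' := by
        have h1 : T * L ^ (C + 1) = (T * L ^ C) * L := by rw [pow_succ]; ring
        have h2 : 0 < T * L ^ C := by positivity
        rw [h1] at hTt
        nlinarith
      have hv : (q, c % q, s, r) ∈ Idx := by
        rw [hIdx, mem_filter, mem_product, mem_product, mem_product, mem_Icc, mem_range, mem_range, mem_range]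
        have hqQ : q ≤ Q := by rw [hQ]; exact Nat.le_floor hqL
        refine ⟨⟨⟨hq, hqQ⟩, (Nat.mod_lt _ hq).trans_le hqQ, hs3, hrR⟩, ?_, ?_⟩
        · show T * L ^ C ≤ ((s * 2 ^ r : ℕ) : ℝ)
          rw [← hH']; exact hHT
        · show s * 2 ^ r ≤ Y
          rw [← hH']; exact hs1.trans ht
      have hg : |ER q c m H'| ≤ H' / L ^ (A + 3) := by
        by_contra hcon
        apply hmB
        rw [mem_biUnion]
        refine ⟨_, hv, ?_⟩
        rw [hbad, mem_filter, mem_Ioc]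
        refine ⟨hm, ?_⟩
        show ((s * 2 ^ r : ℕ) : ℝ) / L ^ (A + 3) < |ER q (c % q) m (s * 2 ^ r)|
        rw [← hH', ER_mod]
        exact not_le.1 hcon
      have h1 := hdiff q c m t H' hq hm2 hs1 ht
      have h2 : |ER q c m t| ≤ |ER q c m H'| + |ER q c m t - ER q c m H'| := by
        have := abs_add_le (ER q c m H') (ER q c m t - ER q c m H')
        rwa [add_sub_cancel] at this
      have h3 : ((t : ℝ) - H') * (3 * L) ≤ t / L ^ (A + 3) * (3 * L) := by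
        apply mul_le_mul_of_nonneg_right _ (by positivity)
        rw [le_div_iff₀ (by positivity)]
        exact (mul_le_mul_of_nonneg_left hNge hd0).trans hdN
      have h4 : (H' : ℝ) / L ^ (A + 3) ≤ t / L ^ (A + 3) := by
        apply div_le_div_of_nonneg_right _ (by positivity)
        exact_mod_cast hs1
      have h5 : (t : ℝ) / L ^ (A + 1) = t / L ^ (A + 3) * L ^ 2 := by
        rw [show A + 3 = (A + 1) + 2 by ring, pow_add L (A + 1) 2, ← div_div, div_mul_cancel₀ _ (by positivity)]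
      have h6 : 0 ≤ (t : ℝ) / L ^ (A + 3) := by positivity
      rw [h5]
      have h7 : (t : ℝ) / L ^ (A + 3) + t / L ^ (A + 3) * (3 * L) ≤ t / L ^ (A + 3) * L ^ 2 := by
        have h8 : 1 + 3 * L ≤ L ^ 2 := by nlinarith
        calc (t : ℝ) / L ^ (A + 3) + t / L ^ (A + 3) * (3 * L) = t / L ^ (A + 3) * (1 + 3 * L) := by ring
          _ ≤ _ := mul_le_mul_of_nonneg_left h8 h6
      linarith
    have hLB : 0 < L ^ (A + 1) := by positivity
    have hall : ∀ t ≤ H, |∑ n ∈ Ioc m (m + t), ep q c n| ≤ H / L ^ (A + 1) := by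
      intro t ht
      rw [ep_sum]
      have htr : (t : ℝ) ≤ H := by exact_mod_cast ht
      rcases le_or_gt (T * L ^ (C + 1)) t with h | h
      · exact (hlong t (ht.trans hHY) h).trans (div_le_div_of_nonneg_right htr hLB.le)
      · have h1 := hdiff q c m t 0 hq hm2 (Nat.zero_le _) (ht.trans hHY)
        have h2 : ER q c m 0 = 0 := by
          rw [← ep_sum]; simp
        rw [h2, sub_zero, Nat.cast_zero, sub_zero] at h1
        refine h1.trans ?_
        rw [le_div_iff₀ hLB]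
        calc (t : ℝ) * (3 * L) * L ^ (A + 1) ≤ (T * L ^ (C + 1)) * (L * L) * L ^ (A + 1) := by
              have h3 : 3 * L ≤ L * L := by nlinarith
              gcongr
          _ = T * L ^ (C + A + 4) := by
              have h4 : L ^ (C + A + 4) = L ^ (C + 1) * L ^ 2 * L ^ (A + 1) := by
                rw [← pow_add, ← pow_add]
                congr 1
                ring
              rw [h4]
              ring
          _ ≤ T * L ^ (C + A + 6) := mul_le_mul_of_nonneg_left (pow_le_pow_right₀ hL1 (by omega)) hT0.le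
          _ ≤ H := hH
    have hm4 : 2 ≤ m := by omega
    have hab := abel_win wt (ep q c) m H (H / L ^ (A + 1)) (wt_nonneg _)
      (fun j _ => wt_anti (by omega) (by omega)) hall
    have hwm : wt m ≤ 1 := by
      unfold wt
      have h1 : L ≤ Real.log m := by
        rw [hLd]
        apply Real.log_le_log hY0
        exact_mod_cast hm.1.le
      rw [div_le_one (by linarith)]
      linarith
    have hid : ∑ n ∈ Ioc m (m + H), wt n * ep q c n =
        (#((Ioc m (m + H)).filter (fun n : ℕ => n.Prime ∧ n % q = c % q)) : ℝ) -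
          (if c.Coprime q then (∑ n ∈ Ioc m (m + H), wt n) / Nat.totient q else 0) := by
      have h1 : ∀ n ∈ Ioc m (m + H), wt n * ep q c n = (if n.Prime ∧ n % q = c % q then (1 : ℝ) else 0) -
          (if c.Coprime q then wt n / Nat.totient q else 0) := by
        intro n _
        unfold ep
        rw [mul_sub]
        congr 1
        · by_cases h2 : n % q = c % q
          · rw [if_pos h2, mul_comm, th_wt]
            by_cases h3 : n.Prime
            · rw [if_pos h3, if_pos ⟨h3, h2⟩]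
            · rw [if_neg h3, if_neg (fun h => h3 h.1)]
          · rw [if_neg h2, mul_zero, if_neg (fun h => h2 h.2)]
        · split_ifs
          · ring
          · ring
      rw [sum_congr rfl h1, sum_sub_distrib]
      congr 1
      · rw [← sum_filter, sum_const, nsmul_eq_mul, mul_one]
      · split_ifs
        · rw [sum_div]
        · simp
    rw [hid] at hab
    refine hab.trans ?_
    calc wt m * (H / L ^ (A + 1)) ≤ 1 * (H / L ^ (A + 1)) := mul_le_mul_of_nonneg_right hwm (by positivity)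
      _ = H / L ^ (A + 1) := one_mul _
      _ ≤ H / L ^ A := by
          apply div_le_div_of_nonneg_left (Nat.cast_nonneg _) (by positivity)
          exact pow_le_pow_right₀ hL1 (by omega)

end Run7.h212.A
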